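import Pool.Agent.J4H78.HG.Stm2

/-!
Piece UNI of project HG2 (helper78): the numbers `la u`, `u` a unit of `ℚ(√p)`, form a cyclic group with a generator
`≥ 1 / 10`.
-/

set_option autoImplicit false

open NumberField Complex Filter Topology MeasureTheory

namespace Pool.Agent.J4H84.HG

open Pool.Agent.J4H78.HG
open Pool.Agent.J4H78.GP (QD)

/-- a quadratic field with two infinite places is totally real, and has no other places -/
theorem two_places {K : Type} [Field K] [NumberField K] (hd : Module.finrank ℚ K = 2)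
    (w w' : InfinitePlace K) (h : w ≠ w') :
    (∀ v, v = w ∨ v = w') ∧ ∀ v : InfinitePlace K, v.IsReal := by
  classical
  have h1 := InfinitePlace.card_add_two_mul_card_eq_rank K
  have h2 := InfinitePlace.card_eq_nrRealPlaces_add_nrComplexPlaces K
  have h3 : 2 ≤ Fintype.card (InfinitePlace K) := by
    have : Finset.card {w, w'} ≤ Fintype.card (InfinitePlace K) := Finset.card_le_univ _
    rwa [Finset.card_pair h] at this
  have h4 : InfinitePlace.nrComplexPlaces K = 0 := by omega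
  have h5 : Fintype.card (InfinitePlace K) = 2 := by omega
  refine ⟨fun v => ?_, fun v => ?_⟩
  · have : ({w, w'} : Finset (InfinitePlace K)) = Finset.univ := by
      apply Finset.eq_univ_of_card
      rw [Finset.card_pair h, h5]
    have hv : v ∈ ({w, w'} : Finset (InfinitePlace K)) := by rw [this]; exact Finset.mem_univ v
    simpa using hv
  · by_contra hv
    have hc : v.IsComplex := InfinitePlace.not_isReal_iff_isComplex.mp hv
    have : 0 < InfinitePlace.nrComplexPlaces K := Fintype.card_pos_iff.mpr ⟨⟨v, hc⟩⟩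
    omega

/-- the norm is the product of the two absolute values -/
theorem prod_two {K : Type} [Field K] [NumberField K] (hd : Module.finrank ℚ K = 2)
    (w w' : InfinitePlace K) (h : w ≠ w') (x : K) : w x * w' x = |(Algebra.norm ℚ x : ℝ)| := by
  classical
  obtain ⟨h1, h2⟩ := two_places hd w w' h
  have h3 : (Finset.univ : Finset (InfinitePlace K)) = {w, w'} := by
    ext v
    simpa using h1 v
  have h4 := InfinitePlace.prod_eq_abs_norm x
  rw [h3, Finset.prod_pair h] at h4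
  rw [InfinitePlace.mult_isReal ⟨w, h2 w⟩, InfinitePlace.mult_isReal ⟨w', h2 w'⟩, pow_one, pow_one] at h4
  rw [h4]
  simp

theorem one_le {K : Type} [Field K] [NumberField K] (hd : Module.finrank ℚ K = 2)
    (w w' : InfinitePlace K) (h : w ≠ w') (x : 𝓞 K) (hx : x ≠ 0) : 1 ≤ w (x : K) * w' (x : K) := by
  rw [prod_two hd w w' h]
  have h1 : Algebra.norm ℤ x ≠ 0 := by
    rw [Ne, Algebra.norm_eq_zero_iff]
    exact hx
  have h2 : (Algebra.norm ℚ (x : K) : ℚ) = (Algebra.norm ℤ x : ℤ) := by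
    rw [← Algebra.coe_norm_int]
  rw [h2]
  have h3 : (1 : ℤ) ≤ |Algebra.norm ℤ x| := Int.one_le_abs h1
  have h4 : ((1 : ℤ) : ℝ) ≤ ((|Algebra.norm ℤ x| : ℤ) : ℝ) := by exact_mod_cast h3
  simpa using h4

theorem unit_prod {K : Type} [Field K] [NumberField K] (hd : Module.finrank ℚ K = 2)
    (w w' : InfinitePlace K) (h : w ≠ w') (u : (𝓞 K)ˣ) :
    w ((u : 𝓞 K) : K) * w' ((u : 𝓞 K) : K) = 1 := by
  rw [prod_two hd w w' h]
  have h2 := NumberField.Units.norm K u
  have h3 : ((|Algebra.norm ℚ ((u : 𝓞 K) : K)| : ℚ) : ℝ) = ((1 : ℚ) : ℝ) := congrArg _ h2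
  rw [Rat.cast_abs, Rat.cast_one] at h3
  exact h3

theorem sq_sub_one {K : Type} [Field K] [NumberField K] (v : InfinitePlace K) (hv : v.IsReal) (x : K) :
    v (x ^ 2 - 1) = |v x ^ 2 - 1| := by
  rw [← InfinitePlace.norm_embedding_of_isReal hv, ← InfinitePlace.norm_embedding_of_isReal hv,
    map_sub, map_pow, map_one, Real.norm_eq_abs, Real.norm_eq_abs, sq_abs]

/-- no unit has `la u` in `(0, 1/10)` -/
theorem gap {K : Type} [Field K] [NumberField K] (hd : Module.finrank ℚ K = 2)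
    (w w' : InfinitePlace K) (h : w ≠ w') (u : (𝓞 K)ˣ) (h0 : 0 < la w w' ((u : 𝓞 K) : K)) :
    1 / 10 ≤ la w w' ((u : 𝓞 K) : K) := by
  by_contra hlt
  push Not at hlt
  have hr := (two_places hd w w' h).2
  have h1 := unit_prod hd w w' h u
  have hu : ((u : 𝓞 K) : K) ≠ 0 := by
    have : (u : 𝓞 K) ≠ 0 := u.ne_zero
    exact_mod_cast this
  have hw : 0 < w ((u : 𝓞 K) : K) := InfinitePlace.pos_iff.mpr hu
  have hw' : 0 < w' ((u : 𝓞 K) : K) := InfinitePlace.pos_iff.mpr hu
  have hl : Real.log (w ((u : 𝓞 K) : K)) + Real.log (w' ((u : 𝓞 K) : K)) = 0 := by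
    rw [← Real.log_mul hw.ne' hw'.ne', h1, Real.log_one]
  set a := w ((u : 𝓞 K) : K) with ha
  set b := w' ((u : 𝓞 K) : K) with hb
  have hla : la w w' ((u : 𝓞 K) : K) = 2 * Real.log a := by
    unfold la
    rw [← ha, ← hb]
    linarith
  rw [hla] at h0 hlt
  have ha1 : 1 < a := by
    by_contra hc
    push Not at hc
    have := Real.log_nonpos hw.le hc
    linarith
  have ha2 : a ^ 2 ≤ 1 + 2 / 10 := by
    have : a ^ 2 = Real.exp (2 * Real.log a) := by
      rw [mul_comm, Real.exp_mul, Real.exp_log hw]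
      norm_num
    rw [this]
    have h2 : Real.exp (2 * Real.log a) ≤ 1 / (1 - 2 * Real.log a) := by
      have h3 := Real.add_one_le_exp (-(2 * Real.log a))
      have h4 : 0 < 1 - 2 * Real.log a := by linarith
      rw [le_div_iff₀ h4]
      have h5 : Real.exp (2 * Real.log a) * (1 - 2 * Real.log a) ≤ Real.exp (2 * Real.log a) * Real.exp (-(2 * Real.log a)) := by
        apply mul_le_mul_of_nonneg_left _ (Real.exp_pos _).le
        linarith
      rw [← Real.exp_add, add_neg_cancel, Real.exp_zero] at h5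
      exact h5
    refine h2.trans ?_
    rw [div_le_iff₀ (by linarith)]
    nlinarith
  have hne : (u : 𝓞 K) ^ 2 - 1 ≠ 0 := by
    intro hc
    have h2 : (((u : 𝓞 K) ^ 2 - 1 : 𝓞 K) : K) = 0 := by rw [hc]; simp
    have h3 : ((u : 𝓞 K) : K) ^ 2 - 1 = 0 := by simpa using h2
    have h4 := sq_sub_one w (hr w) ((u : 𝓞 K) : K)
    rw [h3, map_zero, ← ha] at h4
    have h5 : a ^ 2 - 1 = 0 := abs_eq_zero.mp h4.symm
    nlinarith
  have h2 := one_le hd w w' h _ hne
  have h3 : (((u : 𝓞 K) ^ 2 - 1 : 𝓞 K) : K) = ((u : 𝓞 K) : K) ^ 2 - 1 := by simp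
  rw [h3, sq_sub_one w (hr w), sq_sub_one w' (hr w'), ← ha, ← hb] at h2
  have h4 : |a ^ 2 - 1| ≤ 2 / 10 := by
    rw [abs_of_pos (by nlinarith)]
    linarith
  have hb1 : b ≤ 1 := by
    by_contra hc
    push Not at hc
    nlinarith
  have h5 : |b ^ 2 - 1| ≤ 1 := by
    rw [abs_le]
    constructor <;> nlinarith [sq_nonneg b]
  have h6 : |a ^ 2 - 1| * |b ^ 2 - 1| ≤ 2 / 10 * 1 := mul_le_mul h4 h5 (abs_nonneg _) (by norm_num)
  linarith

theorem t_UNI : S_UN1 → S_UNI := by
  rintro ⟨C, hC, hU⟩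
  refine ⟨C, hC, fun p K _ _ hp hK w w' h => ?_⟩
  have hd := hK.deg
  obtain ⟨u₀, h0, h1⟩ := hU p K hp hK w w' h
  refine ⟨(two_places hd w w' h).1, ?_⟩
  have hne : ∀ u : (𝓞 K)ˣ, ((u : 𝓞 K) : K) ≠ 0 := by
    intro u
    have : (u : 𝓞 K) ≠ 0 := u.ne_zero
    exact_mod_cast this
  have hmul : ∀ u v : (𝓞 K)ˣ, la w w' (((u * v : (𝓞 K)ˣ) : 𝓞 K) : K) =
      la w w' ((u : 𝓞 K) : K) + la w w' ((v : 𝓞 K) : K) := by
    intro u v
    have e : (((u * v : (𝓞 K)ˣ) : 𝓞 K) : K) = ((u : 𝓞 K) : K) * ((v : 𝓞 K) : K) := by simp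
    unfold la
    rw [e, map_mul, map_mul, Real.log_mul, Real.log_mul]
    · ring
    all_goals
      exact (InfinitePlace.pos_iff.mpr (hne _)).ne'
  have hone : la w w' (((1 : (𝓞 K)ˣ) : 𝓞 K) : K) = 0 := by
    have := hmul 1 1
    rw [mul_one] at this
    linarith
  let G : AddSubgroup ℝ :=
    { carrier := {r | ∃ u : (𝓞 K)ˣ, la w w' ((u : 𝓞 K) : K) = r}
      zero_mem' := ⟨1, hone⟩
      add_mem' := by
        rintro a b ⟨u, rfl⟩ ⟨v, rfl⟩
        exact ⟨u * v, hmul u v⟩
      neg_mem' := by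
        rintro a ⟨u, rfl⟩
        refine ⟨u⁻¹, ?_⟩
        have := hmul u u⁻¹
        rw [mul_inv_cancel, hone] at this
        linarith }
  have hgap : ∀ r ∈ G, 0 < r → 1 / 10 ≤ r := by
    rintro r ⟨u, rfl⟩ hr
    exact gap hd w w' h u hr
  rcases G.dense_or_cyclic with hG | ⟨a, hG⟩
  · exfalso
    obtain ⟨r, hr, h2, h3⟩ := hG.exists_between (show (0 : ℝ) < 1 / 10 by norm_num)
    have := hgap r hr h2
    linarith
  · have ha : a ∈ G := by rw [hG]; exact AddSubgroup.mem_closure_singleton_self a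
    have hka : ∀ r ∈ G, ∃ k : ℤ, r = k * a := by
      intro r hr
      rw [hG, AddSubgroup.mem_closure_singleton] at hr
      obtain ⟨k, hk⟩ := hr
      exact ⟨k, by rw [← hk]; simp⟩
    have hg0 : la w w' ((u₀ : 𝓞 K) : K) ∈ G := ⟨u₀, rfl⟩
    have ha0 : a ≠ 0 := by
      rintro rfl
      obtain ⟨k, hk⟩ := hka _ hg0
      rw [mul_zero] at hk
      linarith
    have haG : |a| ∈ G := by
      rcases abs_choice a with h2 | h2
      · rw [h2]; exact ha
      · rw [h2]; exact G.neg_mem ha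
    have hkR : ∀ r ∈ G, ∃ k : ℤ, r = k * |a| := by
      intro r hr
      obtain ⟨k, hk⟩ := hka r hr
      rcases abs_choice a with h2 | h2
      · exact ⟨k, by rw [h2]; exact hk⟩
      · exact ⟨-k, by rw [h2, hk]; push_cast; ring⟩
    refine ⟨|a|, hgap _ haG (abs_pos.mpr ha0), ?_, haG, fun u => hkR _ ⟨u, rfl⟩⟩
    obtain ⟨k, hk⟩ := hkR _ hg0
    have hpos : 0 < |a| := abs_pos.mpr ha0
    have hk1 : (1 : ℤ) ≤ k := by
      by_contra hc
      push Not at hc
      have : (k : ℝ) ≤ 0 := by exact_mod_cast (by omega : k ≤ 0)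
      nlinarith
    have hk2 : (1 : ℝ) ≤ k := by exact_mod_cast hk1
    nlinarith

end Pool.Agent.J4H84.HG
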