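import Pool.Agent.J4H78.HG.Stm3
import Pool.Agent.J4H78.HG.Den
import Pool.Agent.J4H74.GP.Mix0
import Pool.Agent.J4H57.GP.Gap

/-!
Piece CLS of project HG3 (helper78): the number of the tuples of ideals in a class.
-/

set_option autoImplicit false

open NumberField Complex Filter Topology MeasureTheory

namespace Pool.Agent.J4H84.HG

open Pool.Agent.J4H78.HG
open Pool.Agent.J4H78.GP (QD)
open Pool.Agent.J4H21.GP (ext ext_apply)
open Pool.Agent.J4H57.GP (isCl_ext)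

theorem isHk_zero {K : Type} [Field K] [NumberField K] (χ : ClassGroup (𝓞 K) →* ℂˣ) :
    IsHk K (fun _ => 0) (ext χ) := by
  intro x hx
  rw [isCl_ext χ x hx]
  unfold pw
  simp

theorem notNorm_ext (hN : S_NNW) {p : ℕ} {K : Type} [Field K] [NumberField K] (hp : p.Prime) (hK : QD p K)
    {χ : ClassGroup (𝓞 K) →* ℂˣ} (hχ : χ ≠ 1) : NotNorm (ext χ) := by
  by_contra hc
  obtain ⟨t, ht, h1⟩ := hN p K hp hK _ (ext χ) (isHk_zero χ) hc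
  obtain ⟨w⟩ := (inferInstance : Nonempty (InfinitePlace K))
  have ht0 : t = 0 := (ht w).symm
  apply hχ
  apply char_one_of
  intro 𝔞 h𝔞
  rw [h1 𝔞 h𝔞, ht0]
  simp

theorem t_CLS : S_NNW → S_CLS := by
  classical
  intro hN p K _ _ hp hK S hS m T hT hB 𝔟 h𝔟
  have hmem : ∀ 𝔮 : S, (𝔮 : Ideal (𝓞 K)) ∈ nonZeroDivisors (Ideal (𝓞 K)) :=
    fun 𝔮 => mem_nonZeroDivisors_of_ne_zero (hS 𝔮 𝔮.2)
  have hb : 𝔟 ∈ nonZeroDivisors (Ideal (𝓞 K)) := mem_nonZeroDivisors_of_ne_zero h𝔟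
  have h1 := Pool.Agent.J4H74.GP.mix_core (ClassGroup (𝓞 K)) S
    (fun 𝔮 => ClassGroup.mk0 ⟨(𝔮 : Ideal (𝓞 K)), hmem 𝔮⟩) T hT (by
      intro χ hχ
      have h2 := hB (fun _ => 0) (ext χ) (isHk_zero χ) (notNorm_ext hN hp hK hχ) (by simp)
      have h3 : ∑ 𝔮 ∈ S, ext χ 𝔮 = ∑ 𝔮 : S, ext χ (𝔮 : Ideal (𝓞 K)) := (Finset.sum_coe_sort S _).symm
      rw [h3] at h2
      refine le_trans (le_of_eq ?_) h2
      congr 1
      refine Finset.sum_congr rfl fun 𝔮 _ => ?_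
      exact (ext_apply χ ⟨(𝔮 : Ideal (𝓞 K)), hmem 𝔮⟩).symm) m (ClassGroup.mk0 ⟨𝔟, hb⟩)
  rw [Fintype.card_coe] at h1
  have h2 : Nat.card {f : Fin m → S // ∏ j, ClassGroup.mk0 ⟨(f j : Ideal (𝓞 K)), hmem (f j)⟩ =
      ClassGroup.mk0 ⟨𝔟, hb⟩} = cls (S : Set (Ideal (𝓞 K))) m 𝔟 := by
    unfold cls
    refine Nat.card_congr (Equiv.subtypeEquivRight fun f => ?_)
    rw [← map_prod, ClassGroup.mk0_eq_mk0_iff]
    have h3 : ((∏ j, (⟨(f j : Ideal (𝓞 K)), hmem (f j)⟩ : nonZeroDivisors (Ideal (𝓞 K))) :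
        nonZeroDivisors (Ideal (𝓞 K))) : Ideal (𝓞 K)) = ∏ j, (f j : Ideal (𝓞 K)) := by
      rw [Submonoid.coe_finset_prod]
    rw [h3]
    constructor
    · rintro ⟨a, b, ha, hb, h⟩
      exact ⟨a, b, ha, hb, h⟩
    · rintro ⟨a, b, ha, hb, h⟩
      exact ⟨a, b, ha, hb, h⟩
  rw [h2] at h1
  exact h1

end Pool.Agent.J4H84.HG
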