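import Pool.Agent.J4H78.HG.Stm2
import Pool.Agent.J4H19.HG.Odh
import Pool.Agent.J4H84.HG.Uni

/-!
Piece NNW of project HG2 (helper78): the type of a power of the norm is constant.
-/

set_option autoImplicit false

open NumberField Complex Filter Topology MeasureTheory

namespace Pool.Agent.J4H84.HG

open Pool.Agent.J4H78.HG
open Pool.Agent.J4H78.GP (QD)
open Pool.Agent.J4H19.HG (Per per_zero log_norm pw_eq)

/-- all places of a quadratic field with a root of `p` are real -/
theorem mult_one {p : ℕ} (hp : p.Prime) {K : Type} [Field K] [NumberField K] (hK : QD p K)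
    (w : InfinitePlace K) : w.mult = 1 := by
  obtain ⟨E⟩ := Pool.Agent.J4H19.GP.exists_dat hp hK
  have hgal := E.gal
  have hreal : w.IsReal := by
    rw [InfinitePlace.isReal_iff]
    obtain ⟨τ, hτ⟩ := ComplexEmbedding.exists_comp_symm_eq_of_comp_eq (k := ℚ) w.embedding
      (ComplexEmbedding.conjugate w.embedding) (Subsingleton.elim _ _)
    rcases E.all τ with h1 | h1
    · rw [ComplexEmbedding.isReal_iff, ← hτ, h1]
      rfl
    · exfalso
      set s : K := (E.s : K) with hs
      have hs2 : s ^ 2 = (p : K) := by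
        have := congrArg (fun x : 𝓞 K => (x : K)) E.hs
        simpa using this
      have hσs : E.σ s = -s := by
        have := congrArg (fun x : 𝓞 K => (x : K)) E.hσs
        simpa using this
      have hσs' : E.σ.symm s = -s := by
        apply E.σ.injective
        rw [AlgEquiv.apply_symm_apply, map_neg, hσs, neg_neg]
      obtain ⟨r, hr0, hr⟩ : ∃ r : ℝ, r ≠ 0 ∧ w.embedding s = (r : ℂ) := by
        have h1 : (w.embedding s) ^ 2 = (((Real.sqrt p : ℝ) : ℂ)) ^ 2 := by
          rw [← map_pow, hs2, map_natCast, ← Complex.ofReal_pow, Real.sq_sqrt (by positivity)]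
          simp
        have hp0 : Real.sqrt p ≠ 0 := by
          have : (0 : ℝ) < p := by exact_mod_cast hp.pos
          exact (Real.sqrt_pos.2 this).ne'
        rcases sq_eq_sq_iff_eq_or_eq_neg.1 h1 with h2 | h2
        · exact ⟨Real.sqrt p, hp0, h2⟩
        · exact ⟨-Real.sqrt p, neg_ne_zero.2 hp0, by rw [h2]; simp⟩
      have h2 := congrArg (fun f : K →+* ℂ => f s) hτ
      simp only [RingHom.comp_apply] at h2
      have h3 : w.embedding (E.σ.symm s) = (starRingEnd ℂ) (w.embedding s) := by
        rw [← h1]
        exact h2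
      rw [hσs', map_neg, hr, Complex.conj_ofReal] at h3
      have h4 : -r = r := by exact_mod_cast h3
      exact hr0 (by linarith)
  exact InfinitePlace.mult_isReal ⟨w, hreal⟩

theorem t_NNW : S_NNW := by
  intro p K _ _ hp hK μ ψ hψ hN
  unfold NotNorm at hN
  push Not at hN
  obtain ⟨t, ht⟩ := hN
  have hper : Per (fun w : InfinitePlace K => μ w - t * w.mult) := by
    intro x hx
    have hsp : Ideal.span {x} ≠ ⊥ := by
      rwa [Ne, Ideal.span_singleton_eq_bot]
    have h1 := ht _ hsp
    rw [hψ x hx, pw_eq, log_norm hx] at h1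
    have h2 : Complex.exp (((∑ w : InfinitePlace K, (μ w - t * w.mult) * Real.log (w (x : K)) : ℝ) : ℂ) * I) = 1 := by
      have h4 : (∑ w : InfinitePlace K, (μ w - t * w.mult) * Real.log (w (x : K))) =
          (∑ w, μ w * Real.log (w (x : K))) - t * ∑ w : InfinitePlace K, (w.mult : ℝ) * Real.log (w (x : K)) := by
        rw [Finset.mul_sum, ← Finset.sum_sub_distrib]
        refine Finset.sum_congr rfl fun w _ => ?_
        ring
      rw [h4, Complex.ofReal_sub, sub_mul, Complex.exp_sub, h1, div_self (Complex.exp_ne_zero _)]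
    obtain ⟨k, hk⟩ := Complex.exp_eq_one_iff.1 h2
    refine ⟨k, ?_⟩
    have h5 : ((∑ w : InfinitePlace K, (μ w - t * w.mult) * Real.log (w (x : K)) : ℝ) : ℂ) * I =
        ((k * (2 * Real.pi) : ℝ) : ℂ) * I := by
      rw [hk]
      push_cast
      ring
    exact_mod_cast mul_right_cancel₀ Complex.I_ne_zero h5
  have hD := per_zero hp hK hper
  refine ⟨t, fun w => ?_, ht⟩
  have := hD w
  rw [mult_one hp hK w] at this
  push_cast at this
  linarith

end Pool.Agent.J4H84.HG
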